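import Pool.Agent.Lib.MP_b1a3a4_al.MVS.Interfaces

/-!
# Module DOM (1.4): the domination lemma
-/

set_option autoImplicit false

namespace Pool.Agent.Lib.MP_b1a3a4_al.MVS.H38

open Finsupp

/-- The shifted complex. -/
def domC (C : ℕ → Type) (B : Type) : ℕ → Type
  | 0 => C 1 × B
  | q + 1 => C (q + 2)

section

variable {R : Type} [Ring R] (C : ℕ → Type) [iC : ∀ q, AddCommGroup (C q)]
  [iM : ∀ q, Module R (C q)] (B : Type) [iB : AddCommGroup B] [iMB : Module R B]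

instance domGrp : ∀ q, AddCommGroup (domC C B q)
  | 0 => inferInstanceAs (AddCommGroup (C 1 × B))
  | q + 1 => inferInstanceAs (AddCommGroup (C (q + 2)))

instance domMod : ∀ q, Module R (domC C B q)
  | 0 => inferInstanceAs (Module R (C 1 × B))
  | q + 1 => inferInstanceAs (Module R (C (q + 2)))

variable {C}

/-- The differential of the shifted complex. -/
def domD (d : ∀ q, C (q + 1) →ₗ[R] C q) : ∀ q, domC C B (q + 1) →ₗ[R] domC C B q
  | 0 => (LinearMap.inl R (C 1) B ∘ₗ d 1 : C 2 →ₗ[R] C 1 × B)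
  | q + 1 => (d (q + 2) : C (q + 3) →ₗ[R] C (q + 2))

end

theorem dom_aux (hL : LiftStatement) (hR : ResexStatement) (R : Type) [Ring R] (n : ℕ) :
    ∀ (A : Type) [AddCommGroup A] [Module R A]
    (C : ℕ → Type) [∀ q, AddCommGroup (C q)] [∀ q, Module R (C q)]
    (d : ∀ q, C (q + 1) →ₗ[R] C q) (e : C 0 →ₗ[R] A),
    (∀ q, q + 1 < n → ∀ z, d q (d (q + 1) z) = 0) → (0 < n → ∀ z, e (d 0 z) = 0) →
    (∀ q, q ≤ n → ∃ Y : Type, Finite Y ∧ Nonempty (C q ≃ₗ[R] (Y →₀ R))) →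
    ∀ (P : FreeRes R A) (u : ∀ q : ℕ, (P.X q →₀ R) →ₗ[R] C q),
      (∀ z, e (u 0 z) = P.ε z) → (∀ q, q < n → ∀ z, d q (u (q + 1) z) = u q (P.d q z)) →
      IsFP R n A := by
  induction n with
  | zero =>
    intro A _ _ C _ _ d e _ _ hfree P u he _
    obtain ⟨Y, hY, ⟨φ⟩⟩ := hfree 0 le_rfl
    have hs : Function.Surjective (e ∘ₗ φ.symm.toLinearMap) := by
      intro a
      obtain ⟨z, hz⟩ := P.ε_surj a
      refine ⟨φ (u 0 z), ?_⟩
      simp [he, hz]
    exact Module.Finite.of_surjective _ hs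
  | succ n ih =>
    intro A _ _ C _ _ d e hdd hed hfree P u he hu
    obtain ⟨Y, hY, ⟨φ0⟩⟩ := hfree 0 (Nat.zero_le _)
    obtain ⟨r, ⟨eY⟩⟩ := Finite.exists_equiv_fin Y
    -- `C 0` is `R^r`
    let φ : C 0 ≃ₗ[R] (Fin r →₀ R) := φ0.trans (Finsupp.domLCongr eY)
    let f : (Fin r →₀ R) →ₗ[R] A := e ∘ₗ φ.symm.toLinearMap
    have hf : Function.Surjective f := by
      intro a
      obtain ⟨z, hz⟩ := P.ε_surj a
      refine ⟨φ (u 0 z), ?_⟩
      change e (φ.symm (φ (u 0 z))) = a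
      rw [φ.symm_apply_apply, he, hz]
    refine ⟨r, f, hf, ?_⟩
    obtain ⟨P'⟩ := hR.1 R (LinearMap.ker f)
    let P'' : FreeRes R A := FreeRes.cons f hf P'
    obtain ⟨v, hv0, hv⟩ := hL R A P''.X P''.d P''.ε P''.isCx P''.ε_d P
    -- the chain map `u''`
    have hw0 : ∀ z : Fin r →₀ R, e (u 0 (v 0 z)) = f z := by
      intro z
      rw [he]
      exact hv0 z
    have hw : ∀ q, q < n + 1 → ∀ z, d q (u (q + 1) (v (q + 1) z)) = u q (v q (P''.d q z)) := by
      intro q hq z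
      rw [hu q hq, hv]
    -- the new complex
    let e' : C 1 × (Fin r →₀ R) →ₗ[R] LinearMap.ker f :=
      LinearMap.codRestrict (LinearMap.ker f)
        (LinearMap.coprod (φ.toLinearMap ∘ₗ d 0)
          (LinearMap.id - φ.toLinearMap ∘ₗ u 0 ∘ₗ v 0))
        (by
          intro x
          have h1 : e (d 0 x.1) = 0 := hed (Nat.succ_pos n) x.1
          have h2 : e (u 0 (v 0 x.2)) = e (φ.symm x.2) := hw0 x.2
          change e (φ.symm (φ (d 0 x.1) + (x.2 - φ (u 0 (v 0 x.2))))) = 0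
          rw [map_add, map_sub, φ.symm_apply_apply, φ.symm_apply_apply, map_add, map_sub, h1, h2]
          simp)
    let u' : ∀ q : ℕ, (P'.X q →₀ R) →ₗ[R] domC C (Fin r →₀ R) q := fun q =>
      match q with
      | 0 => (LinearMap.prod (u 1 ∘ₗ v 1) ((LinearMap.ker f).subtype ∘ₗ P'.ε) :
          (P'.X 0 →₀ R) →ₗ[R] C 1 × (Fin r →₀ R))
      | q + 1 => (u (q + 2) ∘ₗ v (q + 2) : (P'.X (q + 1) →₀ R) →ₗ[R] C (q + 2))
    refine ih (LinearMap.ker f) (domC C (Fin r →₀ R)) (domD (Fin r →₀ R) d) e' ?_ ?_ ?_ P' u' ?_ ?_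
    · intro q hq z
      match q with
      | 0 =>
        have h1 : d 1 (d 2 z) = 0 := hdd 1 (by omega) z
        exact Prod.ext h1 rfl
      | q + 1 =>
        change d (q + 2) (d (q + 3) z) = 0
        exact hdd (q + 2) (by omega) z
    · intro hn z
      apply Subtype.ext
      have h1 : d 0 (d 1 z) = 0 := hdd 0 (by omega) z
      change φ (d 0 (d 1 z)) + ((0 : Fin r →₀ R) - φ (u 0 (v 0 0))) = 0
      rw [h1, map_zero, map_zero, map_zero, map_zero, sub_zero, add_zero]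
    · intro q hq
      match q with
      | 0 =>
        obtain ⟨Y1, hY1, ⟨φ1⟩⟩ := hfree 1 (by omega)
        refine ⟨Y1 ⊕ Fin r, inferInstance, ⟨?_⟩⟩
        exact (LinearEquiv.prodCongr φ1 (LinearEquiv.refl R (Fin r →₀ R))).trans
          (Finsupp.sumFinsuppLEquivProdFinsupp R).symm
      | q + 1 => exact hfree (q + 2) (by omega)
    · intro z
      apply Subtype.ext
      have h1 : d 0 (u 1 (v 1 z)) = u 0 (v 0 ((P'.ε z : LinearMap.ker f) : Fin r →₀ R)) :=
        hw 0 (Nat.succ_pos n) z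
      change φ (d 0 (u 1 (v 1 z))) + (((P'.ε z : LinearMap.ker f) : Fin r →₀ R) -
        φ (u 0 (v 0 ((P'.ε z : LinearMap.ker f) : Fin r →₀ R)))) = (P'.ε z : LinearMap.ker f)
      rw [h1]
      abel
    · intro q hq z
      match q with
      | 0 =>
        have h1 : d 1 (u 2 (v 2 z)) = u 1 (v 1 (P'.d 0 z)) := hw 1 (by omega) z
        have h2 : P'.ε (P'.d 0 z) = 0 := P'.ε_d z
        change (d 1 (u 2 (v 2 z)), (0 : Fin r →₀ R)) =
          (u 1 (v 1 (P'.d 0 z)), ((P'.ε (P'.d 0 z) : LinearMap.ker f) : Fin r →₀ R))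
        rw [h1, h2]
        rfl
      | q + 1 => exact hw (q + 2) (by omega) z

/-- Module DOM. -/
theorem dom (hL : LiftStatement) (hR : ResexStatement) : DomStatement := by
  intro R _ n A _ _ C _ _ d e h1 h2 h3 P u h4 h5
  exact dom_aux hL hR R n A C d e h1 h2 h3 P u h4 h5

end Pool.Agent.Lib.MP_b1a3a4_al.MVS.H38
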