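import Pool.Agent.Lib.MP_b1a3a4_al.MVS.Interfaces

/-!
# Module FILT (1.5): the filtration lemma (Brown criterion)
-/

set_option autoImplicit false

namespace Pool.Agent.Lib.MP_b1a3a4_al.MVS.H38

open Finsupp

section

variable {R : Type} [Ring R] {A : Type} [AddCommGroup A] [Module R A]
  {M : ℕ → Type} [∀ q, AddCommGroup (M q)] [∀ q, Module R (M q)]
  (d : ∀ q, M (q + 1) →ₗ[R] M q) (e : M 0 →ₗ[R] A) (E : ∀ q : ℕ, ℕ → Submodule R (M q))
  (c r0 : ℕ) (P : FreeRes R A)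

/-- The first map. -/
noncomputable def fu0 : (P.X 0 →₀ R) →ₗ[R] M 0 := by
  classical
  exact Finsupp.linearCombination R (fun x =>
    if h : ∃ b ∈ E 0 r0, e b = P.ε (Finsupp.single x 1) then h.choose else 0)

/-- The next map. -/
noncomputable def fnext (q : ℕ) (w : (P.X q →₀ R) →ₗ[R] M q) :
    (P.X (q + 1) →₀ R) →ₗ[R] M (q + 1) := by
  classical
  exact Finsupp.linearCombination R (fun x =>
    if h : ∃ b ∈ E (q + 1) (r0 + (q + 1) * c), d q b = w (P.d q (Finsupp.single x 1))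
    then h.choose else 0)

/-- The chain map. -/
noncomputable def fu : ∀ q : ℕ, (P.X q →₀ R) →ₗ[R] M q
  | 0 => fu0 e E r0 P
  | q + 1 => fnext d E c r0 P q (fu q)

theorem mem_of_basis {Y N : Type} [AddCommGroup N] [Module R N] (f : (Y →₀ R) →ₗ[R] N)
    (S : Submodule R N) (h : ∀ y, f (Finsupp.single y 1) ∈ S) (z : Y →₀ R) : f z ∈ S := by
  induction z using Finsupp.induction_linear with
  | zero => rw [map_zero]; exact S.zero_mem
  | add v w hv hw => rw [map_add]; exact S.add_mem hv hw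
  | single y a =>
    have h1 : (Finsupp.single y a : Y →₀ R) = a • Finsupp.single y 1 := by
      rw [Finsupp.smul_single, smul_eq_mul, mul_one]
    rw [h1, map_smul]
    exact S.smul_mem a (h y)

theorem fu0_spec (h : ∀ a, ∃ x ∈ E 0 r0, e x = a) :
    (∀ z, fu0 e E r0 P z ∈ E 0 r0) ∧ ∀ z, e (fu0 e E r0 P z) = P.ε z := by
  classical
  have h1 : ∀ x, fu0 e E r0 P (Finsupp.single x 1) ∈ E 0 r0 ∧
      e (fu0 e E r0 P (Finsupp.single x 1)) = P.ε (Finsupp.single x 1) := by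
    intro x
    have h2 := h (P.ε (Finsupp.single x 1))
    have h3 : fu0 e E r0 P (Finsupp.single x 1) = h2.choose := by
      rw [fu0, Finsupp.linearCombination_single, one_smul, dif_pos h2]
    rw [h3]
    exact h2.choose_spec
  refine ⟨mem_of_basis _ _ fun x => (h1 x).1, ?_⟩
  have h4 : e ∘ₗ fu0 e E r0 P = P.ε := lin_ext fun x => (h1 x).2
  exact fun z => LinearMap.congr_fun h4 z

theorem fnext_spec (q : ℕ) (w : (P.X q →₀ R) →ₗ[R] M q)
    (h : ∀ x, ∃ b ∈ E (q + 1) (r0 + (q + 1) * c), d q b = w (P.d q (Finsupp.single x 1))) :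
    (∀ z, fnext d E c r0 P q w z ∈ E (q + 1) (r0 + (q + 1) * c)) ∧
      ∀ z, d q (fnext d E c r0 P q w z) = w (P.d q z) := by
  classical
  have h1 : ∀ x, fnext d E c r0 P q w (Finsupp.single x 1) ∈ E (q + 1) (r0 + (q + 1) * c) ∧
      d q (fnext d E c r0 P q w (Finsupp.single x 1)) = w (P.d q (Finsupp.single x 1)) := by
    intro x
    have h2 := h x
    have h3 : fnext d E c r0 P q w (Finsupp.single x 1) = h2.choose := by
      rw [fnext, Finsupp.linearCombination_single, one_smul, dif_pos h2]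
    rw [h3]
    exact h2.choose_spec
  refine ⟨mem_of_basis _ _ fun x => (h1 x).1, ?_⟩
  have h4 : d q ∘ₗ fnext d E c r0 P q w = w ∘ₗ P.d q := lin_ext fun x => (h1 x).2
  exact fun z => LinearMap.congr_fun h4 z

theorem fu_spec (n : ℕ) (h0 : ∀ a, ∃ x ∈ E 0 r0, e x = a)
    (h1 : 1 ≤ n → ∀ r, ∀ z ∈ E 0 r, e z = 0 → ∃ b ∈ E 1 (r + c), d 0 b = z)
    (h2 : ∀ q, q + 2 ≤ n → ∀ r, ∀ z ∈ E (q + 1) r, d q z = 0 → ∃ b ∈ E (q + 2) (r + c),
      d (q + 1) b = z) : ∀ q, q + 1 ≤ n →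
    (∀ z, fu d e E c r0 P q z ∈ E q (r0 + q * c)) ∧
      (∀ z, fu d e E c r0 P (q + 1) z ∈ E (q + 1) (r0 + (q + 1) * c)) ∧
      ∀ z, d q (fu d e E c r0 P (q + 1) z) = fu d e E c r0 P q (P.d q z) := by
  intro q
  induction q with
  | zero =>
    intro hn
    obtain ⟨h3, h4⟩ := fu0_spec e E r0 P h0
    have h5 : ∀ z, fu d e E c r0 P 0 z ∈ E 0 (r0 + 0 * c) := by
      intro z
      rw [zero_mul, add_zero]
      exact h3 z
    obtain ⟨h6, h7⟩ := fnext_spec d E c r0 P 0 (fu d e E c r0 P 0) (by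
      intro x
      have h8 : e (fu d e E c r0 P 0 (P.d 0 (Finsupp.single x 1))) = 0 := by
        have := h4 (P.d 0 (Finsupp.single x 1))
        rw [P.ε_d] at this
        exact this
      obtain ⟨b, hb, hb'⟩ := h1 hn _ _ (h5 _) h8
      refine ⟨b, ?_, hb'⟩
      have h9 : r0 + (0 + 1) * c = r0 + 0 * c + c := by ring
      rw [h9]
      exact hb)
    exact ⟨h5, h6, h7⟩
  | succ q ih =>
    intro hn
    obtain ⟨i1, i2, i3⟩ := ih (by omega)
    obtain ⟨h6, h7⟩ := fnext_spec d E c r0 P (q + 1) (fu d e E c r0 P (q + 1)) (by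
      intro x
      have h8 : d q (fu d e E c r0 P (q + 1) (P.d (q + 1) (Finsupp.single x 1))) = 0 := by
        rw [i3, P.isCx, map_zero]
      obtain ⟨b, hb, hb'⟩ := h2 q hn _ _ (i2 _) h8
      refine ⟨b, ?_, hb'⟩
      have h9 : r0 + (q + 1 + 1) * c = r0 + (q + 1) * c + c := by ring
      rw [h9]
      exact hb)
    exact ⟨i2, h6, h7⟩

end

/-- Module FILT. -/
theorem filt (hD : DomStatement) (hR : ResexStatement) : FiltStatement := by
  intro R _ n A _ _ M _ _ d e E c hdd hed hmono hfree hd he h1 h2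
  classical
  obtain ⟨r0, h0⟩ := he
  obtain ⟨P⟩ := hR.1 R A
  obtain ⟨s1, s2⟩ := fu0_spec e E r0 P h0
  have hspec := fu_spec d e E c r0 P n h0 h1 h2
  have hmem : ∀ q, q ≤ n → ∀ z, fu d e E c r0 P q z ∈ E q (r0 + q * c) := by
    intro q hq z
    match q with
    | 0 =>
      rw [zero_mul, add_zero]
      exact s1 z
    | q + 1 => exact (hspec q hq).2.1 z
  -- the complex of submodules
  let σ : ℕ → ℕ := fun q => r0 + n * c + (n - q) * c
  have hσ : ∀ q, q + 1 ≤ n → ∀ z ∈ E (q + 1) (σ (q + 1)), d q z ∈ E q (σ q) := by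
    intro q hq z hz
    have h3 : σ q = σ (q + 1) + c := by
      have h4 : n - q = (n - (q + 1)) + 1 := by omega
      change r0 + n * c + (n - q) * c = r0 + n * c + (n - (q + 1)) * c + c
      rw [h4]
      ring
    rw [h3]
    exact hd q hq _ z hz
  have hρ : ∀ q, q ≤ n → ∀ z, fu d e E c r0 P q z ∈ E q (σ q) := by
    intro q hq z
    refine hmono q (r0 + q * c) (σ q) ?_ (hmem q hq z)
    have h3 : q * c ≤ n * c := Nat.mul_le_mul_right c hq
    change r0 + q * c ≤ r0 + n * c + (n - q) * c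
    have h4 : 0 ≤ (n - q) * c := Nat.zero_le _
    omega
  let d' : ∀ q, E (q + 1) (σ (q + 1)) →ₗ[R] E q (σ q) := fun q =>
    if h : q + 1 ≤ n then (d q).restrict (hσ q h) else 0
  have hd' : ∀ q, q + 1 ≤ n → ∀ z, ((d' q z : E q (σ q)) : M q) = d q z := by
    intro q h z
    change (((if h : q + 1 ≤ n then (d q).restrict (hσ q h) else 0) z : E q (σ q)) : M q) = d q z
    rw [dif_pos h]
    rfl
  let u' : ∀ q : ℕ, (P.X q →₀ R) →ₗ[R] E q (σ q) := fun q =>
    if h : q ≤ n then (fu d e E c r0 P q).codRestrict (E q (σ q)) (hρ q h) else 0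
  have hu' : ∀ q, q ≤ n → ∀ z, ((u' q z : E q (σ q)) : M q) = fu d e E c r0 P q z := by
    intro q h z
    change (((if h : q ≤ n then (fu d e E c r0 P q).codRestrict (E q (σ q)) (hρ q h) else 0) z :
      E q (σ q)) : M q) = _
    rw [dif_pos h]
    rfl
  refine hD R n A (fun q => E q (σ q)) d' (e ∘ₗ (E 0 (σ 0)).subtype) ?_ ?_
    (fun q hq => hfree q hq _) P u' ?_ ?_
  · intro q hq z
    apply Subtype.ext
    rw [hd' q (by omega), hd' (q + 1) (by omega), hdd]
    rfl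
  · intro hn z
    change e ((d' 0 z : E 0 (σ 0)) : M 0) = 0
    rw [hd' 0 (by omega), hed]
  · intro z
    change e ((u' 0 z : E 0 (σ 0)) : M 0) = P.ε z
    rw [hu' 0 (Nat.zero_le _)]
    exact s2 z
  · intro q hq z
    apply Subtype.ext
    rw [hd' q hq, hu' (q + 1) hq, hu' q hq.le, (hspec q hq).2.2]

end Pool.Agent.Lib.MP_b1a3a4_al.MVS.H38
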