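import Pool.Agent.Lib.MP_b1a3a4_al.MVS.Interfaces

/-!
# Module FPISO
-/

set_option autoImplicit false

namespace Pool.Agent.Lib.MP_b1a3a4_al.MVS.H38

open Finsupp

theorem isFP_congr {R R' : Type} [Ring R] [Ring R'] (φ : R ≃+* R') (n : ℕ) :
    ∀ (A A' : Type) [AddCommGroup A] [Module R A] [AddCommGroup A'] [Module R' A']
      (f : A ≃+ A'), (∀ (r : R) (a : A), f (r • a) = φ r • f a) → IsFP R n A → IsFP R' n A' := by
  induction n with
  | zero =>
    intro A A' _ _ _ _ f hf hA
    have hA' : Module.Finite R A := hA
    obtain ⟨s, hs⟩ := hA'.fg_top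
    classical
    refine (⟨⟨s.image f, ?_⟩⟩ : Module.Finite R' A')
    rw [eq_top_iff]
    intro a' _
    have h1 : ∀ a ∈ Submodule.span R (s : Set A), f a ∈ Submodule.span R' ((s.image f : Finset A') :
        Set A') := by
      intro a ha
      induction ha using Submodule.span_induction with
      | mem x hx =>
        apply Submodule.subset_span
        rw [Finset.coe_image]
        exact ⟨x, hx, rfl⟩
      | zero => rw [map_zero]; exact Submodule.zero_mem _
      | add x y _ _ hx hy => rw [map_add]; exact Submodule.add_mem _ hx hy
      | smul c x _ hx => rw [hf]; exact Submodule.smul_mem _ _ hx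
    have h2 := h1 (f.symm a') (by rw [hs]; trivial)
    rwa [f.apply_symm_apply] at h2
  | succ n ih =>
    intro A A' _ _ _ _ f hf hA
    obtain ⟨r, g, hg, hk⟩ := hA
    let M : (Fin r →₀ R) ≃+ (Fin r →₀ R') := Finsupp.mapRange.addEquiv φ.toAddEquiv
    let g' : (Fin r →₀ R') →ₗ[R'] A' :=
      Finsupp.linearCombination R' (fun i => f (g (Finsupp.single i 1)))
    have hMs : ∀ (c : R) (x : Fin r →₀ R), M (c • x) = φ c • M x := by
      intro c x
      ext i
      simp [M]
    have hM : ∀ x, g' (M x) = f (g x) := by
      intro x
      induction x using Finsupp.induction_linear with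
      | zero => simp
      | add v w hv hw => simp only [map_add, hv, hw]
      | single i a =>
        have h1 : (Finsupp.single i a : Fin r →₀ R) = a • Finsupp.single i 1 := by
          rw [Finsupp.smul_single, smul_eq_mul, mul_one]
        have h2 : M (Finsupp.single i (1 : R)) = Finsupp.single i 1 := by
          simp [M]
        rw [h1, hMs, map_smul, map_smul, hf, h2]
        congr 1
        simp [g']
    refine ⟨r, g', ?_, ?_⟩
    · intro a'
      obtain ⟨x, hx⟩ := hg (f.symm a')
      exact ⟨M x, by rw [hM, hx, f.apply_symm_apply]⟩
    · refine ih (LinearMap.ker g) (LinearMap.ker g')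
        { toFun := fun x => ⟨M x.1, by
            have := x.2
            rw [LinearMap.mem_ker] at this ⊢
            rw [hM, this, map_zero]⟩
          invFun := fun y => ⟨M.symm y.1, by
            have := y.2
            rw [LinearMap.mem_ker] at this ⊢
            have h3 := hM (M.symm y.1)
            rw [M.apply_symm_apply, this] at h3
            exact (map_eq_zero_iff f f.injective).1 h3.symm⟩
          left_inv := fun x => Subtype.ext (M.symm_apply_apply x.1)
          right_inv := fun y => Subtype.ext (M.apply_symm_apply y.1)
          map_add' := fun x y => Subtype.ext (map_add M x.1 y.1) } ?_ hk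
      intro c x
      exact Subtype.ext (hMs c x.1)

/-- Module FPISO. -/
theorem fpiso : FpisoStatement := by
  intro k G H _ _ _ n e hG
  refine isFP_congr (MonoidAlgebra.mapDomainRingEquiv k e) n (Triv k G) (Triv k H)
    (AddEquiv.refl k) ?_ hG
  intro r a
  rw [triv_smul]
  change aug k G r * (show k from a) = (MonoidAlgebra.mapDomainRingEquiv k e r) • (show Triv k H from a)
  rw [triv_smul]
  change aug k G r * (show k from a) = aug k H (MonoidAlgebra.mapDomainRingEquiv k e r) * (show k from a)
  congr 1
  induction r using MonoidAlgebra.induction_linear with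
  | zero => simp
  | add f g hf hg => simp only [map_add, hf, hg]
  | single s c => simp

end Pool.Agent.Lib.MP_b1a3a4_al.MVS.H38
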