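import Pool.Agent.Lib.MP_b1a3a4_al.MVS.Interfaces

/-!
# Module FPRET (4.4)(iv): retracts
-/

set_option autoImplicit false

namespace Pool.Agent.Lib.MP_b1a3a4_al.MVS.H38

open Finsupp

section

variable {k G H : Type} [CommRing k] [Group G] [Group H] (f : G →* H) {X : Type}

theorem aug_gmap (c : MonoidAlgebra k G) : aug k H (gmap k f c) = aug k G c := by
  induction c using MonoidAlgebra.induction_linear with
  | zero => simp
  | add a b ha hb => simp only [map_add, ha, hb]
  | single s c => simp

/-- The base changed augmentation. -/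
noncomputable def augF (H : Type) [Group H] (ε : (X →₀ MonoidAlgebra k G) →ₗ[MonoidAlgebra k G] Triv k G) :
    (X →₀ MonoidAlgebra k H) →ₗ[MonoidAlgebra k H] Triv k H :=
  Finsupp.linearCombination (MonoidAlgebra k H)
    (fun x => (show Triv k H from (show k from ε (Finsupp.single x 1))))

theorem augF_single (ε : (X →₀ MonoidAlgebra k G) →ₗ[MonoidAlgebra k G] Triv k G) (x : X)
    (c : MonoidAlgebra k H) : augF H ε (Finsupp.single x c) =
      (show Triv k H from (aug k H c * (show k from ε (Finsupp.single x 1)) : k)) := by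
  rw [augF, Finsupp.linearCombination_single]
  rfl

theorem augF_mp (ε : (X →₀ MonoidAlgebra k G) →ₗ[MonoidAlgebra k G] Triv k G)
    (v : X →₀ MonoidAlgebra k G) :
    (show k from augF H ε (mp (gmap k f) v)) = (show k from ε v) := by
  induction v using Finsupp.induction_linear with
  | zero => rw [mp_zero, map_zero, map_zero]; rfl
  | add v w hv hw =>
    rw [mp_add, map_add, map_add]
    change (show k from augF H ε (mp (gmap k f) v)) + (show k from augF H ε (mp (gmap k f) w)) =
      (show k from ε v) + (show k from ε w)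
    rw [hv, hw]
  | single x c =>
    rw [mp_single, augF_single, aug_gmap]
    have h1 : (Finsupp.single x c : X →₀ MonoidAlgebra k G) = c • Finsupp.single x 1 := by
      rw [Finsupp.smul_single, smul_eq_mul, mul_one]
    have h2 : ε (Finsupp.single x c) = c • ε (Finsupp.single x 1) := by
      rw [h1, map_smul]
    rw [h2, triv_smul]

theorem augF_bc {Y : Type} (ε : (X →₀ MonoidAlgebra k G) →ₗ[MonoidAlgebra k G] Triv k G)
    (A : (Y →₀ MonoidAlgebra k G) →ₗ[MonoidAlgebra k G] (X →₀ MonoidAlgebra k G))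
    (h : ∀ z, ε (A z) = 0) (z : Y →₀ MonoidAlgebra k H) : augF H ε (bc (gmap k f) A z) = 0 := by
  have h1 : augF H ε ∘ₗ bc (gmap k f) A = 0 := by
    apply lin_ext
    intro y
    rw [LinearMap.comp_apply, bc_single, one_smul]
    exact (augF_mp f ε _).trans (h _)
  exact LinearMap.congr_fun h1 z

theorem bc_of_id {Λ : Type} [Ring Λ] {Y Z : Type} (A : (Y →₀ Λ) →ₗ[Λ] (Z →₀ Λ)) :
    bc (RingHom.id Λ) A = A := by
  apply lin_ext
  intro y
  rw [bc_single, one_smul, mp_id]

end

theorem gmap_comp_id (k A G : Type) [CommRing k] [Group A] [Group G] (i : A →* G) (r : G →* A)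
    (h : ∀ a, r (i a) = a) :
    (gmap k r).comp (gmap k i) = RingHom.id (MonoidAlgebra k A) := by
  refine RingHom.ext fun x => ?_
  induction x using MonoidAlgebra.induction_linear with
  | zero => simp
  | add f g hf hg => simp only [map_add, hf, hg]
  | single s c => simp [h]

/-- Module FPRET. -/
theorem fpret (hD : DomStatement) (hP : FpresStatement) (hR : ResexStatement)
    (hL : LiftStatement) : FpretStatement := by
  intro k A G _ _ _ i r hri n hG
  obtain ⟨F, hF⟩ := (hP _ n _).1 hG
  obtain ⟨P⟩ := hR.1 (MonoidAlgebra k A) (Triv k A)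
  -- the chain map `i_* P → F`
  obtain ⟨u, hu0, hu⟩ := hL (MonoidAlgebra k G) (Triv k G) P.X (bcD (gmap k i) P.d)
    (augF G P.ε) (bcD_isCx _ P.isCx) (fun z => augF_bc i P.ε (P.d 0) P.ε_d z) F
  refine hD (MonoidAlgebra k A) n (Triv k A) (fun q => F.X q →₀ MonoidAlgebra k A)
    (bcD (gmap k r) F.d) (augF A F.ε) (fun q _ z => bcD_isCx _ F.isCx q z)
    (fun _ z => augF_bc r F.ε (F.d 0) F.ε_d z)
    (fun q hq => ⟨F.X q, hF q hq, ⟨LinearEquiv.refl _ _⟩⟩) P (fun q => bc (gmap k r) (u q))
    ?_ ?_
  · intro z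
    have h1 : augF A F.ε ∘ₗ bc (gmap k r) (u 0) = P.ε := by
      apply lin_ext
      intro x
      rw [LinearMap.comp_apply, bc_single, one_smul]
      have h2 := augF_mp r F.ε (u 0 (Finsupp.single x 1))
      have h3 := hu0 (Finsupp.single x 1)
      have h4 := augF_mp i P.ε (Finsupp.single x 1)
      rw [mp_single, map_one] at h4
      exact h2.trans (Eq.trans h3 h4)
    exact LinearMap.congr_fun h1 z
  · intro q _ z
    have h1 : F.d q ∘ₗ u (q + 1) = u q ∘ₗ bc (gmap k i) (P.d q) := by
      apply LinearMap.ext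
      intro w
      exact hu q w
    have h2 : bc (gmap k r) (F.d q) ∘ₗ bc (gmap k r) (u (q + 1)) =
        bc (gmap k r) (u q) ∘ₗ P.d q := by
      rw [← bc_comp, h1, bc_comp, bc_bc, gmap_comp_id k A G i r hri, bc_of_id]
    exact LinearMap.congr_fun h2 z

end Pool.Agent.Lib.MP_b1a3a4_al.MVS.H38
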