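import Pool.Agent.Lib.MP_b1a3a4_al.MVS.Interfaces

/-!
# Modules SPLIT (1.1), LIFT, HTPY, HEQ (1.2)
-/

set_option autoImplicit false

namespace Pool.Agent.Lib.MP_b1a3a4_al.MVS.H38

open Finsupp

section

variable {R : Type} [Ring R] {Y Z N : Type} [AddCommGroup N] [Module R N]

/-- A linear map chosen on basis elements with `g ∘ s = t` whenever possible. -/
noncomputable def pickLin (g : (Z →₀ R) →ₗ[R] N) (t : (Y →₀ R) →ₗ[R] N) :
    (Y →₀ R) →ₗ[R] (Z →₀ R) := by
  classical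
  exact Finsupp.linearCombination R (fun y =>
    if h : ∃ z, g z = t (Finsupp.single y 1) then h.choose else 0)

theorem pickLin_spec (g : (Z →₀ R) →ₗ[R] N) (t : (Y →₀ R) →ₗ[R] N)
    (h : ∀ y, ∃ z, g z = t (Finsupp.single y 1)) (v : Y →₀ R) : g (pickLin g t v) = t v := by
  classical
  have h1 : g ∘ₗ pickLin g t = t := by
    apply lin_ext
    intro y
    rw [LinearMap.comp_apply, pickLin, Finsupp.linearCombination_single, one_smul,
      dif_pos (h y)]
    exact (h y).choose_spec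
  exact LinearMap.congr_fun h1 v

end

section

variable {R : Type} [Ring R] {A : Type} [AddCommGroup A] [Module R A] {X : ℕ → Type}
  (d : Dif R X) (e : (X 0 →₀ R) →ₗ[R] A) (F : FreeRes R A)

/-- The lifted chain map. -/
noncomputable def lu : ∀ q : ℕ, (X q →₀ R) →ₗ[R] (F.X q →₀ R)
  | 0 => pickLin F.ε e
  | q + 1 => pickLin (F.d q) (lu q ∘ₗ d q)

theorem lu_zero (z : X 0 →₀ R) : F.ε (lu d e F 0 z) = e z :=
  pickLin_spec F.ε e (fun _ => F.ε_surj _) z

theorem lu_succ (hd : IsCx d) (he : ∀ z, e (d 0 z) = 0) (q : ℕ) :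
    ∀ z, F.d q (lu d e F (q + 1) z) = lu d e F q (d q z) := by
  induction q with
  | zero =>
    refine pickLin_spec (F.d 0) (lu d e F 0 ∘ₗ d 0) fun x => ?_
    rw [← F.ex0, LinearMap.comp_apply, lu_zero, he]
  | succ q ih =>
    refine pickLin_spec (F.d (q + 1)) (lu d e F (q + 1) ∘ₗ d (q + 1)) fun x => ?_
    rw [← F.ex, LinearMap.comp_apply, ih, hd, map_zero]

variable (u u' : ∀ q : ℕ, (X q →₀ R) →ₗ[R] (F.X q →₀ R))

/-- The homotopy. -/
noncomputable def hm : ∀ q : ℕ, (X q →₀ R) →ₗ[R] (F.X (q + 1) →₀ R)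
  | 0 => pickLin (F.d 0) (u 0 - u' 0)
  | q + 1 => pickLin (F.d (q + 1)) (u (q + 1) - u' (q + 1) - hm q ∘ₗ d q)

theorem hm_zero (h0 : ∀ z, F.ε (u 0 z) = F.ε (u' 0 z)) (z : X 0 →₀ R) :
    F.d 0 (hm d F u u' 0 z) = u 0 z - u' 0 z := by
  refine pickLin_spec (F.d 0) (u 0 - u' 0) (fun x => ?_) z
  rw [← F.ex0, LinearMap.sub_apply, map_sub, h0, sub_self]

theorem hm_succ (hd : IsCx d) (h1 : ∀ q z, F.d q (u (q + 1) z) = u q (d q z))
    (h2 : ∀ q z, F.d q (u' (q + 1) z) = u' q (d q z))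
    (h0 : ∀ z, F.ε (u 0 z) = F.ε (u' 0 z)) (q : ℕ) :
    ∀ z, F.d (q + 1) (hm d F u u' (q + 1) z) =
      u (q + 1) z - u' (q + 1) z - hm d F u u' q (d q z) := by
  induction q with
  | zero =>
    refine pickLin_spec (F.d 1) (u 1 - u' 1 - hm d F u u' 0 ∘ₗ d 0) fun x => ?_
    rw [← F.ex, LinearMap.sub_apply, LinearMap.sub_apply, LinearMap.comp_apply, map_sub, map_sub,
      h1, h2, hm_zero d F u u' h0, sub_self]
  | succ q ih =>
    refine pickLin_spec (F.d (q + 2))
      (u (q + 2) - u' (q + 2) - hm d F u u' (q + 1) ∘ₗ d (q + 1)) fun x => ?_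
    rw [← F.ex, LinearMap.sub_apply, LinearMap.sub_apply, LinearMap.comp_apply, map_sub, map_sub,
      h1, h2, ih, hd, map_zero, sub_zero, sub_self]

end

/-- Module LIFT. -/
theorem lift : LiftStatement := by
  intro R _ A _ _ X d e hd he F
  exact ⟨lu d e F, lu_zero d e F, lu_succ d e F hd he⟩

/-- Module HTPY. -/
theorem htpy : HtpyStatement := by
  intro R _ A _ _ X d hd F u u' h1 h2 h0
  refine ⟨hm d F u u', fun z => (hm_zero d F u u' h0 z).symm, fun q z => ?_⟩
  rw [hm_succ d F u u' hd h1 h2 h0 q z, sub_add_cancel]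

/-- Module HEQ. -/
theorem heq (hL : LiftStatement) (hH : HtpyStatement) : HeqStatement := by
  intro R _ A _ _ F F'
  obtain ⟨al, a0, a1⟩ := hL R A F.X F.d F.ε F.isCx F.ε_d F'
  obtain ⟨be, b0, b1⟩ := hL R A F'.X F'.d F'.ε F'.isCx F'.ε_d F
  obtain ⟨h, c0, c1⟩ := hH R A F.X F.d F.isCx F (fun q => LinearMap.id)
    (fun q => be q ∘ₗ al q) (fun q z => rfl)
    (fun q z => by simp only [LinearMap.comp_apply, b1, a1])
    (fun z => by simp only [LinearMap.comp_apply, LinearMap.id_apply, b0, a0])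
  obtain ⟨h', c0', c1'⟩ := hH R A F'.X F'.d F'.isCx F' (fun q => LinearMap.id)
    (fun q => al q ∘ₗ be q) (fun q z => rfl)
    (fun q z => by simp only [LinearMap.comp_apply, b1, a1])
    (fun z => by simp only [LinearMap.comp_apply, LinearMap.id_apply, b0, a0])
  exact ⟨al, be, h, h', a0, b0, a1, b1, c0, c1, c0', c1'⟩

section

variable {R : Type} [Ring R] {X : ℕ → Type} (d : Dif R X)

/-- The contraction. -/
noncomputable def cs : ∀ q : ℕ, (X q →₀ R) →ₗ[R] (X (q + 1) →₀ R)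
  | 0 => pickLin (d 0) LinearMap.id
  | q + 1 => pickLin (d (q + 1)) (LinearMap.id - cs q ∘ₗ d q)

theorem cs_zero (h : ExactAt d 0) (z : X 0 →₀ R) : d 0 (cs d 0 z) = z :=
  pickLin_spec (d 0) LinearMap.id (fun x => h _ trivial) z

theorem cs_succ (hd : IsCx d) (n : ℕ) (h : ExactLT d n) (q : ℕ) (hq : q + 1 < n) :
    ∀ z, d (q + 1) (cs d (q + 1) z) = z - cs d q (d q z) := by
  induction q with
  | zero =>
    refine pickLin_spec (d 1) (LinearMap.id - cs d 0 ∘ₗ d 0) fun x => ?_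
    apply h 1 hq
    change d 0 (Finsupp.single x 1 - cs d 0 (d 0 (Finsupp.single x 1))) = 0
    rw [map_sub, cs_zero d (h 0 (by omega)), sub_self]
  | succ q ih =>
    refine pickLin_spec (d (q + 2)) (LinearMap.id - cs d (q + 1) ∘ₗ d (q + 1)) fun x => ?_
    apply h (q + 2) hq
    change d (q + 1) (Finsupp.single x 1 - cs d (q + 1) (d (q + 1) (Finsupp.single x 1))) = 0
    rw [map_sub, ih (by omega), hd, map_zero, sub_zero, sub_self]

end

/-- Module SPLIT. -/
theorem split : SplitStatement := by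
  intro R _ X d n hd
  constructor
  · intro h
    refine ⟨cs d, fun hn z => cs_zero d (h 0 hn) z, fun q hq z => ?_⟩
    rw [cs_succ d hd n h q hq z, sub_add_cancel]
  · rintro ⟨s, h0, h1⟩ q hq z hz
    match q with
    | 0 => exact ⟨s 0 z, h0 hq z⟩
    | q + 1 =>
      refine ⟨s (q + 1) z, ?_⟩
      have h2 := h1 q hq z
      have h3 : d q z = 0 := hz
      rw [h3, map_zero, add_zero] at h2
      exact h2

end Pool.Agent.Lib.MP_b1a3a4_al.MVS.H38
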