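import Pool.Agent.Lib.MP_b1a3a4_al.MVS.Interfaces

/-!
# Modules RESEX and FPRES (1.3)
-/

set_option autoImplicit false

namespace Pool.Agent.Lib.MP_b1a3a4_al.MVS.H38

open Finsupp

/-- A bundled module. -/
structure Md (R : Type) [Ring R] where
  A : Type
  [g : AddCommGroup A]
  [m : Module R A]

attribute [instance] Md.g Md.m

section

variable {R : Type} [Ring R]

/-- The canonical surjection from the free module on the underlying set. -/
noncomputable def canon (M : Md R) : (M.A →₀ R) →ₗ[R] M.A := Finsupp.linearCombination R id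

theorem canon_surj (M : Md R) : Function.Surjective (canon M) := fun a =>
  ⟨Finsupp.single a 1, by simp [canon]⟩

/-- The iterated syzygies. -/
noncomputable def syz (M : Md R) : ℕ → Md R
  | 0 => M
  | q + 1 => ⟨LinearMap.ker (canon (syz M q))⟩

/-- The canonical free resolution. -/
noncomputable def canonRes (M : Md R) : FreeRes R M.A where
  X q := (syz M q).A
  d q := (LinearMap.ker (canon (syz M q))).subtype ∘ₗ canon (syz M (q + 1))
  ε := canon (syz M 0)
  ε_surj := canon_surj M
  ex0 := by
    intro z
    constructor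
    · intro h
      obtain ⟨y, hy⟩ := canon_surj (syz M 1) ⟨z, h⟩
      exact ⟨y, congrArg Subtype.val hy⟩
    · rintro ⟨y, rfl⟩
      exact (canon (syz M 1) y).2
  ex := by
    intro q z
    constructor
    · intro h
      have h1 : canon (syz M (q + 1)) z = 0 := Subtype.ext h
      obtain ⟨y, hy⟩ := canon_surj (syz M (q + 2)) ⟨z, h1⟩
      exact ⟨y, congrArg Subtype.val hy⟩
    · rintro ⟨y, rfl⟩
      exact congrArg Subtype.val (canon (syz M (q + 2)) y).2

end

/-- Module RESEX. -/
theorem resex : ResexStatement := by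
  have h0 : ∀ (R : Type) [Ring R] (A : Type) [AddCommGroup A] [Module R A],
      Nonempty (FreeRes R A) := by
    intro R _ A _ _
    exact ⟨canonRes (⟨A⟩ : Md R)⟩
  refine ⟨h0, ?_⟩
  intro R _ n
  induction n with
  | zero =>
    intro A _ _ hA
    have hA' : Module.Finite R A := hA
    obtain ⟨r, f, hf⟩ := Module.Finite.exists_fin' R A
    let g : (Fin r →₀ R) →ₗ[R] A :=
      f ∘ₗ (Finsupp.linearEquivFunOnFinite R R (Fin r)).toLinearMap
    have hg : Function.Surjective g := hf.comp (LinearEquiv.surjective _)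
    obtain ⟨F⟩ := h0 R (LinearMap.ker g)
    refine ⟨FreeRes.cons g hg F, ?_⟩
    intro q hq
    have hq0 : q = 0 := by omega
    subst hq0
    exact inferInstanceAs (Finite (Fin r))
  | succ n ih =>
    intro A _ _ hA
    obtain ⟨r, f, hf, hk⟩ := hA
    obtain ⟨F, hF⟩ := ih (LinearMap.ker f) hk
    refine ⟨FreeRes.cons f hf F, ?_⟩
    intro q hq
    match q with
    | 0 => exact inferInstanceAs (Finite (Fin r))
    | q + 1 => exact hF q (by omega)

/-- Module FPRES. -/
theorem fpres (hD : DomStatement) (hR : ResexStatement) : FpresStatement := by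
  intro R _ n A _ _
  constructor
  · exact hR.2 R n A
  · rintro ⟨F, hF⟩
    refine hD R n A (fun q => F.X q →₀ R) F.d F.ε (fun q _ z => F.isCx q z)
      (fun _ z => F.ε_d z) (fun q hq => ⟨F.X q, hF q hq, ⟨LinearEquiv.refl R _⟩⟩) F
      (fun q => LinearMap.id) (fun z => rfl) (fun q _ z => rfl)

end Pool.Agent.Lib.MP_b1a3a4_al.MVS.H38
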