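import Pool.Agent.Lib.MP_b1a3a4_al.MVS.Interfaces

/-!
# Modules UP (end of section 7) and CASEPUSH
-/

set_option autoImplicit false

namespace Pool.Agent.Lib.MP_b1a3a4_al.MVS.H38

open Finsupp

theorem res_id {S : Type} [Group S] (χ : Chr S) : χ.res (MonoidHom.id S) = χ := by
  ext x
  rfl

theorem gmap_id (k S : Type) [CommRing k] [Group S] :
    gmap k (MonoidHom.id S) = RingHom.id (MonoidAlgebra k S) := by
  refine RingHom.ext fun x => ?_
  induction x using MonoidAlgebra.induction_linear with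
  | zero => simp
  | add f g hf hg => simp only [map_add, hf, hg]
  | single s c => simp

/-- `N2` for the group itself. -/
theorem push_of_exact {k S : Type} [CommRing k] [Group S] {χ : Chr S} {N : NovRing k S χ}
    (hN : N2prop N) (n : ℕ) (F : GRes k S) (hF : F.Fin n)
    (h : ExactLT (bcD N.ι F.d) (n + 1)) : Push F.d χ n := by
  have h1 := hN S (MonoidHom.id S) Function.injective_id n F hF
  rw [gmap_id, RingHom.comp_id, res_id] at h1
  exact h1 h

/-- Module UP. -/
theorem up (hS : RseqStatement) (h2 : N2Statement) (h1 : N1Statement) (hA : AugStatement) :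
    UpStatement := by
  intro k K S Q _ _ _ _ j π hSES χ n FK FS hFK hFS hP
  obtain ⟨N, hN⟩ := hS k S χ
  have e1 := h1 k S K χ N j n FK hFK hP
  have e2 := hA k K S Q N.R j π hSES N.ι FK FS (n + 1)
  exact push_of_exact (h2 k S χ N hN) n FS hFS (e2.2 (e2.1.1 e1))

theorem unit_of_pos {k S : Type} [CommRing k] [Group S] {χ : Chr S} (N : NovRing k S χ)
    (a : S) (ha : 0 < val χ a) : IsUnit (1 - N.ι (MonoidAlgebra.single a 1)) := by
  have h1 := N.inv Unit (fun _ _ => N.ι (MonoidAlgebra.single a 1)) (val χ a) ha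
    (fun _ _ => N.V_ι a 1)
  have h2 := h1.map (Matrix.uniqueRingEquiv (m := Unit) (A := N.R))
  exact h2

theorem unit_of_ne {k S : Type} [CommRing k] [Group S] {χ : Chr S} (N : NovRing k S χ)
    (a : S) (ha : val χ a ≠ 0) : IsUnit (1 - N.ι (MonoidAlgebra.single a 1)) := by
  rcases lt_or_gt_of_ne ha with h | h
  · have h1 : 0 < val χ a⁻¹ := by
      rw [val_inv]
      linarith
    have h2 := unit_of_pos N a⁻¹ h1
    have e1 : N.ι (MonoidAlgebra.single a 1) * N.ι (MonoidAlgebra.single a⁻¹ 1) = 1 := by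
      rw [← map_mul, MonoidAlgebra.single_mul_single, mul_inv_cancel, one_mul,
        ← MonoidAlgebra.one_def, map_one]
    have e2 : N.ι (MonoidAlgebra.single a⁻¹ 1) * N.ι (MonoidAlgebra.single a 1) = 1 := by
      rw [← map_mul, MonoidAlgebra.single_mul_single, inv_mul_cancel, one_mul,
        ← MonoidAlgebra.one_def, map_one]
    have h3 : IsUnit (N.ι (MonoidAlgebra.single a 1)) := ⟨⟨_, _, e1, e2⟩, rfl⟩
    have h4 : 1 - N.ι (MonoidAlgebra.single a 1) =
        -(N.ι (MonoidAlgebra.single a 1) * (1 - N.ι (MonoidAlgebra.single a⁻¹ 1))) := by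
      rw [mul_sub, mul_one, e1, neg_sub]
    rw [h4]
    exact (h3.mul h2).neg
  · exact unit_of_pos N a h

/-- Module CASEPUSH. -/
theorem casepush (hS : RseqStatement) (h2 : N2Statement) (h1 : N1Statement)
    (hC : CaseAlgStatement) : CasePushStatement := by
  intro k K S Q _ _ _ _ j π hSES χ n FK FS hFK hFS hP a ha hχ
  obtain ⟨N, hN⟩ := hS k S χ
  have e1 := h1 k S K χ N j n FK hFK hP
  have e2 := hC k K S Q N.R j π hSES N.ι FK FS a ha (unit_of_ne N a hχ) (n + 1) e1
  exact push_of_exact (h2 k S χ N hN) (n + 1) FS hFS e2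

end Pool.Agent.Lib.MP_b1a3a4_al.MVS.H38
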